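import Mathlib

namespace Pool.Agent.Results.MP_b44203_nt.SignChanges

open Finset Filter Topology

/-- Number of ways to write `n` as a sum of distinct elements of
`A = {p ^ α * q ^ β : α, β ∈ ℕ}`. -/
noncomputable def f (p q n : ℕ) : ℕ :=
  {S : Finset ℕ | (∀ s ∈ S, ∃ α β : ℕ, s = p ^ α * q ^ β) ∧ ∑ s ∈ S, s = n}.ncard

/-- the element attached to a pair of exponents -/
def a (p q : ℕ) (i : ℕ × ℕ) : ℕ := p ^ i.1 * q ^ i.2

/-- sum of the elements attached to a finite set of pairs -/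
def sg (p q : ℕ) (T : Finset (ℕ × ℕ)) : ℕ := ∑ i ∈ T, a p q i

lemma a_pos {p q : ℕ} (hp : 2 < p) (hpq : p < q) (i : ℕ × ℕ) : 0 < a p q i := by
  unfold a
  have h1 : 0 < p := by omega
  have h2 : 0 < q := by omega
  positivity

lemma a_inj {p q : ℕ} (hp : 2 < p) (hpq : p < q) (hc : Nat.Coprime p q) :
    Function.Injective (a p q) := by
  rintro ⟨x, y⟩ ⟨z, w⟩ h
  unfold a at h
  simp only at h
  have hc1 : ∀ u v : ℕ, Nat.Coprime (p ^ u) (q ^ v) := fun u v => Nat.Coprime.pow _ _ hc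
  have h1 : p ^ x ∣ p ^ z := by
    have : p ^ x ∣ p ^ z * q ^ w := by rw [← h]; exact dvd_mul_right _ _
    exact (hc1 x w).dvd_of_dvd_mul_right this
  have h2 : p ^ z ∣ p ^ x := by
    have : p ^ z ∣ p ^ x * q ^ y := by rw [h]; exact dvd_mul_right _ _
    exact (hc1 z y).dvd_of_dvd_mul_right this
  have h3 : p ^ x = p ^ z := Nat.dvd_antisymm h1 h2
  have h4 : x = z := Nat.pow_right_injective (by omega : 2 ≤ p) h3
  subst h4
  have h5 : q ^ y = q ^ w := Nat.eq_of_mul_eq_mul_left (by positivity) h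
  have h6 : y = w := Nat.pow_right_injective (by omega : 2 ≤ q) h5
  subst h6
  rfl

lemma f_eq {p q : ℕ} (hp : 2 < p) (hpq : p < q) (hc : Nat.Coprime p q) (n : ℕ) :
    f p q n = (sg p q ⁻¹' {n}).ncard := by
  unfold f
  have hinj : Function.Injective (Finset.map ⟨a p q, a_inj hp hpq hc⟩) :=
    Finset.map_injective _
  rw [← Set.ncard_image_of_injective _ hinj]
  congr 1
  ext S
  simp only [Set.mem_ofPred_eq, Set.mem_image, Set.mem_preimage, Set.mem_singleton_iff]
  constructor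
  · rintro ⟨h1, h2⟩
    refine ⟨S.preimage (a p q) (a_inj hp hpq hc).injOn, ?_, ?_⟩
    · unfold sg
      rw [Finset.sum_preimage (a p q) S (a_inj hp hpq hc).injOn (fun x => x)]
      · exact h2
      · intro x hx hx'
        exfalso
        apply hx'
        obtain ⟨α, β, h⟩ := h1 x hx
        exact ⟨(α, β), h.symm⟩
    · ext x
      simp only [Finset.mem_map, Finset.mem_preimage, Function.Embedding.coeFn_mk]
      constructor
      · rintro ⟨i, hi, rfl⟩
        exact hi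
      · intro hx
        obtain ⟨α, β, h⟩ := h1 x hx
        exact ⟨(α, β), by unfold a; rw [← h]; exact hx, h.symm⟩
  · rintro ⟨T, hT, rfl⟩
    refine ⟨?_, ?_⟩
    · intro s hs
      simp only [Finset.mem_map, Function.Embedding.coeFn_mk] at hs
      obtain ⟨i, _, rfl⟩ := hs
      exact ⟨i.1, i.2, rfl⟩
    · rw [Finset.sum_map]
      exact hT

/-- summability of the monomials attached to finite sets of pairs -/
lemma summable_mono {p q : ℕ} (hp : 2 < p) (hpq : p < q) (hc : Nat.Coprime p q)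
    {z : ℂ} (hz : ‖z‖ < 1) : Summable (fun T : Finset (ℕ × ℕ) => ∏ i ∈ T, z ^ (a p q i)) := by
  apply summable_finsetProd_of_summable_norm
  have h1 : Summable (fun n : ℕ => ‖z‖ ^ n) := summable_geometric_of_lt_one (norm_nonneg _) hz
  have h2 := h1.comp_injective (a_inj hp hpq hc)
  refine h2.congr ?_
  intro i
  simp [norm_pow]

lemma prod_eq_pow (p q : ℕ) (z : ℂ) (T : Finset (ℕ × ℕ)) :
    ∏ i ∈ T, z ^ (a p q i) = z ^ (sg p q T) := by
  unfold sg
  rw [Finset.prod_pow_eq_pow_sum]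

/-- The generating function as an infinite product. -/
noncomputable def F (p q : ℕ) (z : ℂ) : ℂ := ∑' T : Finset (ℕ × ℕ), z ^ (sg p q T)

lemma hasProd_F {p q : ℕ} (hp : 2 < p) (hpq : p < q) (hc : Nat.Coprime p q)
    {z : ℂ} (hz : ‖z‖ < 1) : HasProd (fun i : ℕ × ℕ => 1 + z ^ (a p q i)) (F p q z) := by
  apply hasProd_one_add_of_hasSum_prod
  have := (summable_mono hp hpq hc hz).hasSum
  have h2 : (∑' T : Finset (ℕ × ℕ), ∏ i ∈ T, z ^ (a p q i)) = F p q z := by
    unfold F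
    apply tsum_congr
    intro T
    exact prod_eq_pow p q z T
  rw [← h2]
  exact this

lemma hasSum_F {p q : ℕ} (hp : 2 < p) (hpq : p < q) (hc : Nat.Coprime p q)
    {z : ℂ} (hz : ‖z‖ < 1) : HasSum (fun n : ℕ => (f p q n : ℂ) * z ^ n) (F p q z) := by
  have h0 : HasSum (fun T : Finset (ℕ × ℕ) => z ^ (sg p q T)) (F p q z) := by
    have := (summable_mono hp hpq hc hz)
    simp_rw [prod_eq_pow] at this
    exact this.hasSum
  have h1 := h0.tsum_fiberwise (sg p q)
  have h2 : (fun n : ℕ => (f p q n : ℂ) * z ^ n) =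
      fun c : ℕ => ∑' b : ↑(sg p q ⁻¹' {c}), z ^ (sg p q b) := by
    funext n
    have h3 : (∑' b : ↑(sg p q ⁻¹' {n}), z ^ (sg p q b)) = ∑' b : ↑(sg p q ⁻¹' {n}), z ^ n := by
      apply tsum_congr
      rintro ⟨b, hb⟩
      have : sg p q b = n := hb
      simp only [this]
    rw [h3, tsum_const, f_eq hp hpq hc, nsmul_eq_mul]
    rfl
  rw [h2]
  exact h1

lemma sg_le {p q : ℕ} (hp : 2 < p) (hpq : p < q) (L M : ℕ) (T : Finset (ℕ × ℕ))
    (hT : T ⊆ Finset.range L ×ˢ Finset.range M) : sg p q T ≤ q ^ (L + M) := by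
  have h1 : sg p q T ≤ sg p q (Finset.range L ×ˢ Finset.range M) := by
    unfold sg
    exact Finset.sum_le_sum_of_subset hT
  have h2 : sg p q (Finset.range L ×ˢ Finset.range M) =
      (∑ i ∈ Finset.range L, p ^ i) * (∑ j ∈ Finset.range M, q ^ j) := by
    unfold sg a
    rw [Finset.sum_mul_sum, Finset.sum_product]
  have h3 : ∀ (b n : ℕ), 2 ≤ b → ∑ i ∈ Finset.range n, b ^ i ≤ b ^ n := by
    intro b n hb
    exact (Nat.geomSum_lt hb (fun k hk => Finset.mem_range.mp hk)).le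
  calc sg p q T ≤ _ := h1
    _ = _ := h2
    _ ≤ p ^ L * q ^ M := Nat.mul_le_mul (h3 p L (by omega)) (h3 q M (by omega))
    _ ≤ q ^ L * q ^ M := Nat.mul_le_mul_right _ (Nat.pow_le_pow_left (by omega) _)
    _ = q ^ (L + M) := by rw [pow_add]

/-- The real generating function. -/
lemma summable_real {p q : ℕ} (hp : 2 < p) (hpq : p < q) (hc : Nat.Coprime p q)
    {x : ℝ} (hx0 : 0 ≤ x) (hx : x < 1) : Summable (fun n : ℕ => (f p q n : ℝ) * x ^ n) := by
  have h := (hasSum_F hp hpq hc (z := (x : ℂ)) (by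
    rw [Complex.norm_real, Real.norm_of_nonneg hx0]; exact hx)).summable.norm
  refine h.congr ?_
  intro n
  rw [norm_mul, norm_pow, Complex.norm_real, Real.norm_of_nonneg hx0]
  simp

/-- the real generating function -/
noncomputable def R (p q : ℕ) (x : ℝ) : ℝ := ∑' n : ℕ, (f p q n : ℝ) * x ^ n

lemma R_eq {p q : ℕ} (hp : 2 < p) (hpq : p < q) (hc : Nat.Coprime p q)
    {x : ℝ} (hx0 : 0 ≤ x) (hx : x < 1) : ((R p q x : ℝ) : ℂ) = F p q (x : ℂ) := by
  have h := (hasSum_F hp hpq hc (z := (x : ℂ)) (by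
    rw [Complex.norm_real, Real.norm_of_nonneg hx0]; exact hx)).tsum_eq
  rw [← h]
  unfold R
  push_cast
  rfl

lemma R_lower {p q : ℕ} (hp : 2 < p) (hpq : p < q) (hc : Nat.Coprime p q)
    {x : ℝ} (hx0 : 0 < x) (hx : x < 1) (L M : ℕ) (hxq : 1 / 4 ≤ x ^ (q ^ (L + M))) :
    (1 / 4) * 2 ^ (L * M) ≤ R p q x := by
  have hz : ‖(x : ℂ)‖ < 1 := by
    rw [Complex.norm_real, Real.norm_of_nonneg hx0.le]; exact hx
  have h0 : HasSum (fun T : Finset (ℕ × ℕ) => (x : ℂ) ^ (sg p q T)) (F p q x) := by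
    have := (summable_mono hp hpq hc hz)
    simp_rw [prod_eq_pow] at this
    exact this.hasSum
  have h1 : HasSum (fun T : Finset (ℕ × ℕ) => x ^ (sg p q T)) (R p q x) := by
    rw [← R_eq hp hpq hc hx0.le hx] at h0
    exact_mod_cast h0
  have h2 : ∑ T ∈ (Finset.range L ×ˢ Finset.range M).powerset, x ^ (sg p q T) ≤ R p q x := by
    apply sum_le_hasSum _ _ h1
    intro i _
    positivity
  refine le_trans ?_ h2
  have h3 : ∀ T ∈ (Finset.range L ×ˢ Finset.range M).powerset, (1 / 4 : ℝ) ≤ x ^ (sg p q T) := by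
    intro T hT
    refine le_trans hxq ?_
    exact pow_le_pow_of_le_one hx0.le hx.le (sg_le hp hpq L M T (Finset.mem_powerset.mp hT))
  have h4 := Finset.card_nsmul_le_sum _ _ _ h3
  rw [Finset.card_powerset, Finset.card_product, Finset.card_range, Finset.card_range,
    nsmul_eq_mul] at h4
  push_cast at h4
  linarith


/-- the primitive root of unity -/
noncomputable def ze (p : ℕ) : ℂ := Complex.exp (2 * Real.pi * Complex.I / p)

lemma ze_pow (p n : ℕ) : ze p ^ n = Complex.exp (((2 * Real.pi * n / p : ℝ) : ℂ) * Complex.I) := by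
  unfold ze
  rw [← Complex.exp_nat_mul]
  congr 1
  push_cast
  ring

lemma ze_pow_p {p : ℕ} (hp : 2 < p) : ze p ^ p = 1 := by
  rw [ze_pow]
  have hp0 : (p : ℝ) ≠ 0 := by positivity
  have : (2 * Real.pi * p / p : ℝ) = 2 * Real.pi := by field_simp
  rw [this]
  push_cast
  exact Complex.exp_two_pi_mul_I

lemma ze_norm (p : ℕ) : ‖ze p‖ = 1 := by
  have h := ze_pow p 1
  rw [pow_one] at h
  rw [h]
  exact Complex.norm_exp_ofReal_mul_I _

/-- `|1 + e^{iθ} y|² = (1+y)² - 2y(1 - cos θ)` -/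
lemma normSq_one_add (t y : ℝ) :
    ‖1 + Complex.exp ((t : ℂ) * Complex.I) * (y : ℂ)‖ ^ 2 = 1 + 2 * y * Real.cos t + y ^ 2 := by
  rw [← Complex.normSq_eq_norm_sq, Complex.normSq_apply]
  have h1 : (1 + Complex.exp ((t : ℂ) * Complex.I) * (y : ℂ)).re = 1 + Real.cos t * y := by
    simp [Complex.exp_ofReal_mul_I_re]
  have h2 : (1 + Complex.exp ((t : ℂ) * Complex.I) * (y : ℂ)).im = Real.sin t * y := by
    simp [Complex.exp_ofReal_mul_I_im]
  rw [h1, h2]
  have := Real.sin_sq_add_cos_sq t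
  nlinarith [this]

lemma ratio_bound (t y c : ℝ) (hc : 0 ≤ c) (h : c ≤ |Real.cos (t / 2)|) :
    c * (1 + y) ≤ ‖1 + Complex.exp ((t : ℂ) * Complex.I) * (y : ℂ)‖ := by
  have h1 := normSq_one_add t y
  have h2 : Real.cos t = 2 * Real.cos (t / 2) ^ 2 - 1 := by
    rw [← Real.cos_two_mul]; congr 1; ring
  have h3 : c ^ 2 ≤ Real.cos (t / 2) ^ 2 := by
    rw [← sq_abs (Real.cos (t / 2))]
    exact pow_le_pow_left₀ hc h 2
  have h4 : Real.cos (t / 2) ^ 2 ≤ 1 := Real.cos_sq_le_one _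
  have h5 : (c * (1 + y)) ^ 2 ≤ ‖1 + Complex.exp ((t : ℂ) * Complex.I) * (y : ℂ)‖ ^ 2 := by
    rw [h1, h2]
    have e1 : 0 ≤ (1 - y) ^ 2 * (1 - Real.cos (t / 2) ^ 2) :=
      mul_nonneg (sq_nonneg _) (by linarith)
    have e2 : 0 ≤ (1 + y) ^ 2 * (Real.cos (t / 2) ^ 2 - c ^ 2) :=
      mul_nonneg (sq_nonneg _) (by linarith)
    nlinarith [e1, e2]
  exact le_trans (le_abs_self _) (abs_le_of_sq_le_sq h5 (norm_nonneg _))

lemma cos_bound {p r : ℕ} (hp : 2 < p) (hr : r < p) (h2 : 2 * r ≠ p) :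
    1 / (p : ℝ) ≤ |Real.cos (Real.pi * r / p)| := by
  have hp0 : (0 : ℝ) < p := by positivity
  have key : ∀ s : ℕ, 2 * s < p → 1 / (p : ℝ) ≤ Real.cos (Real.pi * s / p) := by
    intro s hs
    have h1 : Real.cos (Real.pi * s / p) = Real.sin (Real.pi / 2 - Real.pi * s / p) :=
      (Real.sin_pi_div_two_sub _).symm
    rw [h1]
    have hs' : (2 : ℝ) * s + 1 ≤ p := by exact_mod_cast hs
    have h2 : Real.pi / 2 - Real.pi * s / p = Real.pi * (p - 2 * s) / (2 * p) := by
      field_simp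
    have h3 : 0 ≤ Real.pi / 2 - Real.pi * s / p := by
      rw [h2]
      apply div_nonneg (mul_nonneg Real.pi_pos.le (by linarith)) (by linarith)
    have h4 : Real.pi / 2 - Real.pi * s / p ≤ Real.pi / 2 := by
      have : 0 ≤ Real.pi * s / p := by positivity
      linarith
    have h5 := Real.mul_le_sin h3 h4
    refine le_trans ?_ h5
    rw [h2]
    have : 2 / Real.pi * (Real.pi * (p - 2 * s) / (2 * p)) = (p - 2 * s) / p := by
      have := Real.pi_pos.ne'
      field_simp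
    rw [this]
    apply div_le_div_of_nonneg_right _ hp0.le
    linarith
  rcases Nat.lt_or_gt_of_ne h2 with h | h
  · exact le_trans (key r h) (le_abs_self _)
  · have h3 := key (p - r) (by omega)
    have h4 : Real.pi * ((p - r : ℕ) : ℝ) / p = Real.pi - Real.pi * r / p := by
      rw [Nat.cast_sub hr.le]
      field_simp
    rw [h4, Real.cos_pi_sub] at h3
    exact le_trans h3 (neg_le_abs _)

lemma ne_half {p q : ℕ} (hp : 2 < p) (hc : Nat.Coprime p q) (b : ℕ) : 2 * (q ^ b % p) ≠ p := by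
  intro h
  have hc2 : Nat.Coprime p (q ^ b) := Nat.Coprime.pow_right _ hc
  have h1 : (q ^ b % p) ∣ p := ⟨2, by omega⟩
  have h2 : (q ^ b % p) ∣ q ^ b := by
    have h3 := Nat.div_add_mod (q ^ b) p
    have h4 : (q ^ b % p) ∣ p * (q ^ b / p) + q ^ b % p :=
      dvd_add (dvd_mul_of_dvd_left h1 _) dvd_rfl
    rwa [h3] at h4
  have h3 : (q ^ b % p) ∣ 1 := by
    rw [← hc2]
    exact Nat.dvd_gcd h1 h2
  have h4 := Nat.dvd_one.mp h3
  omega

lemma ze_bound {p q : ℕ} (hp : 2 < p) (hc : Nat.Coprime p q) (b : ℕ) (y : ℝ) :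
    1 / (p : ℝ) * (1 + y) ≤ ‖1 + ze p ^ (q ^ b) * (y : ℂ)‖ := by
  have h1 : ze p ^ (q ^ b) = ze p ^ (q ^ b % p) := by
    conv_lhs => rw [← Nat.div_add_mod (q ^ b) p, pow_add, pow_mul, ze_pow_p hp, one_pow, one_mul]
  rw [h1, ze_pow]
  apply ratio_bound _ _ _ (by positivity)
  have h2 : (2 * Real.pi * ((q ^ b % p : ℕ) : ℝ) / p) / 2 = Real.pi * ((q ^ b % p : ℕ) : ℝ) / p := by
    ring
  rw [h2]
  exact cos_bound hp (Nat.mod_lt _ (by omega)) (ne_half hp hc b)

lemma hasSum_R {p q : ℕ} (hp : 2 < p) (hpq : p < q) (hc : Nat.Coprime p q)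
    {x : ℝ} (hx0 : 0 < x) (hx : x < 1) :
    HasSum (fun T : Finset (ℕ × ℕ) => x ^ (sg p q T)) (R p q x) := by
  have hz : ‖(x : ℂ)‖ < 1 := by
    rw [Complex.norm_real, Real.norm_of_nonneg hx0.le]; exact hx
  have h0 : HasSum (fun T : Finset (ℕ × ℕ) => (x : ℂ) ^ (sg p q T)) (F p q x) := by
    have := (summable_mono hp hpq hc hz)
    simp_rw [prod_eq_pow] at this
    exact this.hasSum
  rw [← R_eq hp hpq hc hx0.le hx] at h0
  exact_mod_cast h0

lemma hasProd_R {p q : ℕ} (hp : 2 < p) (hpq : p < q) (hc : Nat.Coprime p q)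
    {x : ℝ} (hx0 : 0 < x) (hx : x < 1) :
    HasProd (fun i : ℕ × ℕ => 1 + x ^ (a p q i)) (R p q x) := by
  apply hasProd_one_add_of_hasSum_prod
  have h : (fun T : Finset (ℕ × ℕ) => ∏ i ∈ T, x ^ (a p q i)) = fun T => x ^ (sg p q T) := by
    funext T
    unfold sg
    rw [Finset.prod_pow_eq_pow_sum]
  rw [h]
  exact hasSum_R hp hpq hc hx0 hx

lemma tail_prod (n : ℕ) :
    (1 : ℝ) / 3 + 2 / 3 * (1 / 4) ^ n ≤ ∏ j ∈ Finset.range n, (1 - 2 * (1 / 4 : ℝ) ^ (j + 1)) := by
  induction n with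
  | zero => norm_num
  | succ n ih =>
    rw [Finset.prod_range_succ]
    have hu0 : (0 : ℝ) < (1 / 4) ^ n := by positivity
    have hu1 : (1 / 4 : ℝ) ^ n ≤ 1 := pow_le_one₀ (by norm_num) (by norm_num)
    set u : ℝ := (1 / 4) ^ n
    have e : (1 / 4 : ℝ) ^ (n + 1) = u / 4 := by
      rw [pow_succ]; ring
    rw [e]
    have h1 : (1 / 3 + 2 / 3 * u) * (1 - 2 * (u / 4)) ≤
        (∏ j ∈ Finset.range n, (1 - 2 * (1 / 4 : ℝ) ^ (j + 1))) * (1 - 2 * (u / 4)) :=
      mul_le_mul_of_nonneg_right ih (by linarith)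
    nlinarith [h1]

lemma row_bound {p q : ℕ} (hp : 2 < p) (hpq : p < q) (hc : Nat.Coprime p q)
    {x : ℝ} (hx0 : 0 < x) (K M : ℕ) (hxK : x ^ (q ^ K) = 1 / 4) :
    1 / 3 * (1 / (p : ℝ)) ^ K * ∏ b ∈ Finset.range (K + M), (1 + x ^ (q ^ b)) ≤
      ∏ b ∈ Finset.range (K + M), ‖1 + ze p ^ (q ^ b) * ((x ^ (q ^ b) : ℝ) : ℂ)‖ := by
  rw [Finset.prod_range_add, Finset.prod_range_add]
  have h1 : (1 / (p : ℝ)) ^ K * ∏ b ∈ Finset.range K, (1 + x ^ (q ^ b)) ≤
      ∏ b ∈ Finset.range K, ‖1 + ze p ^ (q ^ b) * ((x ^ (q ^ b) : ℝ) : ℂ)‖ := by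
    have e : (1 / (p : ℝ)) ^ K = ∏ b ∈ Finset.range K, (1 / (p : ℝ)) := by simp
    rw [e, ← Finset.prod_mul_distrib]
    apply Finset.prod_le_prod
    · intro i _
      positivity
    · intro i _
      exact ze_bound hp hc i _
  have h2 : 1 / 3 * ∏ j ∈ Finset.range M, (1 + x ^ (q ^ (K + j))) ≤
      ∏ j ∈ Finset.range M, ‖1 + ze p ^ (q ^ (K + j)) * ((x ^ (q ^ (K + j)) : ℝ) : ℂ)‖ := by
    have h3 : ∀ j ∈ Finset.range M, (1 - 2 * (1 / 4 : ℝ) ^ (j + 1)) * (1 + x ^ (q ^ (K + j))) ≤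
        ‖1 + ze p ^ (q ^ (K + j)) * ((x ^ (q ^ (K + j)) : ℝ) : ℂ)‖ := by
      intro j _
      have hy : x ^ (q ^ (K + j)) = (1 / 4) ^ (q ^ j) := by
        rw [pow_add, pow_mul, hxK]
      have hy1 : x ^ (q ^ (K + j)) ≤ (1 / 4) ^ (j + 1) := by
        rw [hy]
        apply pow_le_pow_of_le_one (by norm_num) (by norm_num)
        exact Nat.lt_pow_self (by omega)
      have hy0 : 0 < x ^ (q ^ (K + j)) := by positivity
      set y := x ^ (q ^ (K + j))
      have h4 : ‖ze p ^ (q ^ (K + j)) * ((y : ℝ) : ℂ)‖ = y := by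
        rw [norm_mul, norm_pow, ze_norm, one_pow, one_mul, Complex.norm_real,
          Real.norm_of_nonneg hy0.le]
      have h5 : 1 - y ≤ ‖1 + ze p ^ (q ^ (K + j)) * ((y : ℝ) : ℂ)‖ := by
        have := norm_sub_norm_le (1 : ℂ) (-(ze p ^ (q ^ (K + j)) * ((y : ℝ) : ℂ)))
        rw [norm_neg, h4, norm_one, sub_neg_eq_add] at this
        exact this
      refine le_trans ?_ h5
      have h6 : (1 - 2 * (1 / 4 : ℝ) ^ (j + 1)) * (1 + y) ≤ (1 - 2 * y) * (1 + y) :=
        mul_le_mul_of_nonneg_right (by linarith) (by linarith)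
      nlinarith [h6]
    have h7 : (1 : ℝ) / 3 ≤ ∏ j ∈ Finset.range M, (1 - 2 * (1 / 4 : ℝ) ^ (j + 1)) := by
      refine le_trans ?_ (tail_prod M)
      have : (0 : ℝ) ≤ 2 / 3 * (1 / 4) ^ M := by positivity
      linarith
    calc 1 / 3 * ∏ j ∈ Finset.range M, (1 + x ^ (q ^ (K + j)))
        ≤ (∏ j ∈ Finset.range M, (1 - 2 * (1 / 4 : ℝ) ^ (j + 1))) *
          ∏ j ∈ Finset.range M, (1 + x ^ (q ^ (K + j))) := by
          apply mul_le_mul_of_nonneg_right h7
          apply Finset.prod_nonneg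
          intro i _
          positivity
      _ = ∏ j ∈ Finset.range M, (1 - 2 * (1 / 4 : ℝ) ^ (j + 1)) * (1 + x ^ (q ^ (K + j))) := by
          rw [Finset.prod_mul_distrib]
      _ ≤ _ := by
          apply Finset.prod_le_prod
          · intro i _
            apply mul_nonneg
            · have : (1 / 4 : ℝ) ^ (i + 1) ≤ 1 / 4 := by
                rw [pow_succ]
                have : (1 / 4 : ℝ) ^ i ≤ 1 := pow_le_one₀ (by norm_num) (by norm_num)
                linarith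
              linarith
            · positivity
          · exact h3
  have h8 := mul_le_mul h1 h2 (by
    apply mul_nonneg (by norm_num)
    apply Finset.prod_nonneg
    intro i _
    positivity) (by
    apply Finset.prod_nonneg
    intro i _
    positivity)
  refine le_trans (le_of_eq ?_) h8
  ring

lemma box_bound {p q : ℕ} (hp : 2 < p) (hpq : p < q) (hc : Nat.Coprime p q)
    {x : ℝ} (hx0 : 0 < x) (K M : ℕ) (hxK : x ^ (q ^ K) = 1 / 4) :
    1 / 3 * (1 / (p : ℝ)) ^ K *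
      ∏ i ∈ Finset.range (K + M + 1) ×ˢ Finset.range (K + (M + 1)), (1 + x ^ (a p q i)) ≤
      ‖∏ i ∈ Finset.range (K + M + 1) ×ˢ Finset.range (K + (M + 1)),
        (1 + (ze p * (x : ℂ)) ^ (a p q i))‖ := by
  rw [norm_prod, Finset.prod_product, Finset.prod_product, Finset.prod_range_succ',
    Finset.prod_range_succ' (fun α => ∏ y ∈ Finset.range (K + (M + 1)),
      ‖1 + (ze p * (x : ℂ)) ^ (a p q (α, y))‖)]
  have h1 := row_bound hp hpq hc hx0 K (M + 1) hxK
  have h2 : ∏ b ∈ Finset.range (K + (M + 1)), ‖1 + (ze p * (x : ℂ)) ^ (a p q (0, b))‖ =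
      ∏ b ∈ Finset.range (K + (M + 1)), ‖1 + ze p ^ (q ^ b) * ((x ^ (q ^ b) : ℝ) : ℂ)‖ := by
    apply Finset.prod_congr rfl
    intro b _
    unfold a
    simp only [pow_zero, one_mul]
    rw [mul_pow]
    push_cast
    rfl
  have h3 : ∏ b ∈ Finset.range (K + (M + 1)), (1 + x ^ (a p q (0, b))) =
      ∏ b ∈ Finset.range (K + (M + 1)), (1 + x ^ (q ^ b)) := by
    apply Finset.prod_congr rfl
    intro b _
    unfold a
    simp only [pow_zero, one_mul]
  have h4 : ∏ k ∈ Finset.range (K + M), ∏ y ∈ Finset.range (K + (M + 1)),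
        ‖1 + (ze p * (x : ℂ)) ^ (a p q (k + 1, y))‖ =
      ∏ k ∈ Finset.range (K + M), ∏ y ∈ Finset.range (K + (M + 1)), (1 + x ^ (a p q (k + 1, y))) := by
    apply Finset.prod_congr rfl
    intro k _
    apply Finset.prod_congr rfl
    intro y _
    have e : (ze p * (x : ℂ)) ^ (a p q (k + 1, y)) = ((x ^ (a p q (k + 1, y)) : ℝ) : ℂ) := by
      rw [mul_pow]
      have e1 : ze p ^ (a p q (k + 1, y)) = 1 := by
        unfold a
        simp only
        rw [pow_succ, mul_assoc, mul_comm, mul_assoc, pow_mul, ze_pow_p hp, one_pow]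
      rw [e1, one_mul]
      push_cast
      rfl
    rw [e]
    have e2 : (1 : ℂ) + ((x ^ (a p q (k + 1, y)) : ℝ) : ℂ) =
      ((1 + x ^ (a p q (k + 1, y)) : ℝ) : ℂ) := by push_cast; rfl
    rw [e2, Complex.norm_real, Real.norm_of_nonneg (by positivity)]
  rw [h2, h3, h4]
  have h5 : 0 ≤ ∏ k ∈ Finset.range (K + M), ∏ y ∈ Finset.range (K + (M + 1)),
      (1 + x ^ (a p q (k + 1, y))) := by
    apply Finset.prod_nonneg
    intro i _
    apply Finset.prod_nonneg
    intro j _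
    positivity
  have h6 := mul_le_mul_of_nonneg_left h1 h5
  refine le_trans (le_of_eq ?_) h6
  ring

lemma main_ratio {p q : ℕ} (hp : 2 < p) (hpq : p < q) (hc : Nat.Coprime p q)
    {x : ℝ} (hx0 : 0 < x) (hx1 : x < 1) (K : ℕ) (hxK : x ^ (q ^ K) = 1 / 4) :
    1 / 3 * (1 / (p : ℝ)) ^ K * R p q x ≤ ‖F p q (ze p * (x : ℂ))‖ := by
  have hz : ‖ze p * (x : ℂ)‖ < 1 := by
    rw [norm_mul, ze_norm, one_mul, Complex.norm_real, Real.norm_of_nonneg hx0.le]; exact hx1
  have h1 := hasProd_F hp hpq hc hz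
  have h2 := hasProd_R hp hpq hc hx0 hx1
  have ht : Tendsto (fun M : ℕ => Finset.range (K + M + 1) ×ˢ Finset.range (K + (M + 1)))
      atTop atTop := by
    apply tendsto_atTop_finset_of_monotone
    · intro m n hmn
      apply Finset.product_subset_product
      · exact Finset.range_subset_range.mpr (by omega)
      · exact Finset.range_subset_range.mpr (by omega)
    · rintro ⟨u, v⟩
      refine ⟨u + v, ?_⟩
      rw [Finset.mem_product, Finset.mem_range, Finset.mem_range]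
      constructor <;> simp only <;> omega
  have h3 := (h1.comp ht).norm
  have h4 := (h2.comp ht).const_mul (1 / 3 * (1 / (p : ℝ)) ^ K)
  refine le_of_tendsto_of_tendsto' h4 h3 ?_
  intro M
  exact box_bound hp hpq hc hx0 K M hxK

lemma exists_x {q : ℕ} (hq : 2 < q) (K : ℕ) :
    ∃ x : ℝ, 1 / 4 ≤ x ∧ x < 1 ∧ x ^ (q ^ K) = 1 / 4 ∧ 1 - x ≤ 3 / (q : ℝ) ^ K ∧
      3 / (4 * (q : ℝ) ^ K) ≤ 1 - x := by
  have hn : 0 < q ^ K := by positivity
  have hn' : (0 : ℝ) < ((q ^ K : ℕ) : ℝ) := by exact_mod_cast hn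
  have hx0 : (0 : ℝ) < (1 / 4 : ℝ) ^ (1 / ((q ^ K : ℕ) : ℝ)) := by positivity
  have hxn : ((1 / 4 : ℝ) ^ (1 / ((q ^ K : ℕ) : ℝ))) ^ (q ^ K) = 1 / 4 := by
    rw [← Real.rpow_natCast, ← Real.rpow_mul (by norm_num)]
    rw [one_div_mul_cancel hn'.ne', Real.rpow_one]
  have hx1 : (1 / 4 : ℝ) ^ (1 / ((q ^ K : ℕ) : ℝ)) < 1 := by
    apply Real.rpow_lt_one (by norm_num) (by norm_num)
    positivity
  generalize (1 / 4 : ℝ) ^ (1 / ((q ^ K : ℕ) : ℝ)) = x at hx0 hxn hx1
  have hx4 : 1 / 4 ≤ x := by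
    rw [← hxn]
    exact pow_le_of_le_one hx0.le hx1.le hn.ne'
  refine ⟨x, hx4, hx1, hxn, ?_, ?_⟩
  · have h1 := one_add_mul_le_pow (a := 1 / x - 1) (by
      have : 0 < 1 / x := by positivity
      linarith) (q ^ K)
    have h2 : (1 + (1 / x - 1)) ^ (q ^ K) = 4 := by
      have : 1 + (1 / x - 1) = x⁻¹ := by rw [one_div]; ring
      rw [this, inv_pow, hxn]
      norm_num
    rw [h2] at h1
    have h3 : ((q ^ K : ℕ) : ℝ) * (1 / x - 1) ≤ 3 := by linarith
    have h4 : 1 / x - 1 = (1 - x) / x := by field_simp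
    have h5 : 1 - x ≤ 1 / x - 1 := by
      rw [h4, le_div_iff₀ hx0]
      nlinarith
    rw [le_div_iff₀ (by positivity)]
    push_cast at h3
    have h6 : 0 < (q : ℝ) ^ K := by positivity
    nlinarith
  · have h1 := one_add_mul_le_pow (a := x - 1) (by linarith) (q ^ K)
    have h2 : (1 + (x - 1)) ^ (q ^ K) = 1 / 4 := by
      rw [← hxn]; congr 1; ring
    rw [h2] at h1
    rw [div_le_iff₀ (by positivity)]
    push_cast at h1
    linarith

lemma R_big {p q : ℕ} (hp : 2 < p) (hpq : p < q) (hc : Nat.Coprime p q)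
    {x : ℝ} (hx0 : 0 < x) (hx1 : x < 1) (M : ℕ) (hxK : x ^ (q ^ (q + M)) = 1 / 4) :
    1 / 4 * (2 * (q : ℝ)) ^ M ≤ R p q x := by
  refine le_trans ?_ (R_lower hp hpq hc hx0 hx1 q M hxK.ge)
  have h1 : 2 * q ≤ 2 ^ q := by
    obtain ⟨k, rfl⟩ : ∃ k, q = k + 1 := ⟨q - 1, by omega⟩
    have := Nat.lt_pow_self (n := k) (by norm_num : 1 < 2)
    rw [pow_succ]
    omega
  have h2 : (2 * (q : ℝ)) ≤ 2 ^ q := by exact_mod_cast h1
  have h3 : (2 * (q : ℝ)) ^ M ≤ (2 ^ q) ^ M := pow_le_pow_left₀ (by positivity) h2 M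
  rw [pow_mul]
  linarith

lemma diff_bound {p q : ℕ} (hp : 2 < p) (hpq : p < q) (hc : Nat.Coprime p q) (N : ℕ)
    (hN : ∀ n, N ≤ n → f p q n ≤ f p q (n + 1)) :
    ∃ C : ℝ, 0 ≤ C ∧ ∀ z : ℂ, ‖z‖ < 1 → ‖(1 - z) * F p q z‖ ≤ (1 - ‖z‖) * R p q ‖z‖ + C := by
  let e : ℕ → ℝ := fun n => if n < N then 2 * |(f p q (n + 1) : ℝ) - f p q n| else 0
  have he0 : ∀ n, 0 ≤ e n := by
    intro n
    simp only [e]
    split_ifs
    · positivity
    · exact le_rfl
  have he : HasSum e (∑ n ∈ Finset.range N, e n) := by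
    apply hasSum_sum_of_ne_finset_zero
    intro b hb
    simp only [e]
    rw [if_neg]
    simpa using hb
  refine ⟨∑ n ∈ Finset.range N, e n, Finset.sum_nonneg (fun i _ => he0 i), ?_⟩
  intro z hz
  have hx0 : 0 ≤ ‖z‖ := norm_nonneg z
  set x : ℝ := ‖z‖ with hx
  have h1 := hasSum_F hp hpq hc hz
  have h1r : HasSum (fun n : ℕ => (f p q n : ℝ) * x ^ n) (R p q x) :=
    (summable_real hp hpq hc hx0 hz).hasSum
  have h2 : HasSum (fun n : ℕ => ((f p q (n + 1) : ℂ) - f p q n) * z ^ (n + 1))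
      ((F p q z - f p q 0) - z * F p q z) := by
    have e1 : HasSum (fun n : ℕ => (f p q (n + 1) : ℂ) * z ^ (n + 1)) (F p q z - f p q 0) := by
      have := (hasSum_nat_add_iff' (f := fun n : ℕ => (f p q n : ℂ) * z ^ n) 1).mpr h1
      simpa using this
    have e2 := e1.sub (h1.mul_left z)
    have e3 : (fun n : ℕ => ((f p q (n + 1) : ℂ) - f p q n) * z ^ (n + 1)) =
      fun n : ℕ => (f p q (n + 1) : ℂ) * z ^ (n + 1) - z * ((f p q n : ℂ) * z ^ n) := by
      funext n
      ring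
    rw [e3]
    exact e2
  have h2r : HasSum (fun n : ℕ => ((f p q (n + 1) : ℝ) - f p q n) * x ^ (n + 1))
      ((R p q x - f p q 0) - x * R p q x) := by
    have e1 : HasSum (fun n : ℕ => (f p q (n + 1) : ℝ) * x ^ (n + 1)) (R p q x - f p q 0) := by
      have := (hasSum_nat_add_iff' (f := fun n : ℕ => (f p q n : ℝ) * x ^ n) 1).mpr h1r
      simpa using this
    have e2 := e1.sub (h1r.mul_left x)
    have e3 : (fun n : ℕ => ((f p q (n + 1) : ℝ) - f p q n) * x ^ (n + 1)) =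
      fun n : ℕ => (f p q (n + 1) : ℝ) * x ^ (n + 1) - x * ((f p q n : ℝ) * x ^ n) := by
      funext n
      ring
    rw [e3]
    exact e2
  have h3 : ‖(F p q z - f p q 0) - z * F p q z‖ ≤
      ((R p q x - f p q 0) - x * R p q x) + ∑ n ∈ Finset.range N, e n := by
    have h4 := h2r.add he
    rw [← h2.tsum_eq]
    have h5 : ∀ n : ℕ, ‖((f p q (n + 1) : ℂ) - f p q n) * z ^ (n + 1)‖ ≤
        ((f p q (n + 1) : ℝ) - f p q n) * x ^ (n + 1) + e n := by
      intro n
      rw [norm_mul, norm_pow]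
      have h6 : ‖(f p q (n + 1) : ℂ) - f p q n‖ = |(f p q (n + 1) : ℝ) - f p q n| := by
        rw [← Real.norm_eq_abs, ← Complex.norm_real]
        push_cast
        rfl
      rw [h6, ← hx]
      have h7 : 0 ≤ x ^ (n + 1) := by positivity
      have h8 : x ^ (n + 1) ≤ 1 := pow_le_one₀ hx0 hz.le
      by_cases hn : n < N
      · have h9 : e n = 2 * |(f p q (n + 1) : ℝ) - f p q n| := by simp only [e]; rw [if_pos hn]
        rw [h9]
        have h10 := neg_abs_le ((f p q (n + 1) : ℝ) - f p q n)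
        have h11 := abs_nonneg ((f p q (n + 1) : ℝ) - f p q n)
        nlinarith
      · have h9 : e n = 0 := by simp only [e]; rw [if_neg hn]
        rw [h9, add_zero]
        apply mul_le_mul_of_nonneg_right _ h7
        have h10 := hN n (by omega)
        have h11 : (f p q n : ℝ) ≤ f p q (n + 1) := by exact_mod_cast h10
        rw [abs_of_nonneg (by linarith)]
    exact tsum_of_norm_bounded h4 h5
  have h12 : (1 - z) * F p q z = ((F p q z - f p q 0) - z * F p q z) + f p q 0 := by ring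
  rw [h12]
  refine le_trans (norm_add_le _ _) ?_
  have h13 : ‖(f p q 0 : ℂ)‖ = f p q 0 := by simp
  rw [h13]
  linarith

theorem result (p q : ℕ) (hp : 2 < p) (hpq : p < q) (hc : Nat.Coprime p q) :
    (∀ N : ℕ, ∃ n, N ≤ n ∧ f p q n < f p q (n + 1)) ∧
      (∀ N : ℕ, ∃ n, N ≤ n ∧ f p q (n + 1) < f p q n) := by
  have hq0 : (0 : ℝ) < q := by
    have : 0 < q := by omega
    exact_mod_cast this
  have hp0 : (0 : ℝ) < p := by
    have : 0 < p := by omega
    exact_mod_cast this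
  have hpqr : (p : ℝ) < q := by exact_mod_cast hpq
  constructor
  · intro N
    by_contra hcon
    push Not at hcon
    -- f is bounded
    obtain ⟨B, hB⟩ : ∃ B : ℕ, ∀ n, f p q n ≤ B := by
      refine ⟨∑ m ∈ Finset.range (N + 1), f p q m, ?_⟩
      intro n
      have h1 : ∀ m, f p q (N + m) ≤ f p q N := by
        intro m
        induction m with
        | zero => exact le_rfl
        | succ m ih => exact le_trans (hcon (N + m) (by omega)) ih
      rcases Nat.lt_or_ge n (N + 1) with h | h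
      · exact Finset.single_le_sum (f := fun m => f p q m) (fun i _ => Nat.zero_le _)
          (Finset.mem_range.mpr h)
      · obtain ⟨m, rfl⟩ := Nat.exists_eq_add_of_le (by omega : N ≤ n)
        refine le_trans (h1 m) ?_
        exact Finset.single_le_sum (f := fun m => f p q m) (fun i _ => Nat.zero_le _)
          (Finset.mem_range.mpr (by omega))
    have hub : ∀ M : ℕ, (2 : ℝ) ^ M ≤ 16 / 3 * B * (q : ℝ) ^ q := by
      intro M
      obtain ⟨x, hx4, hx1, hxn, _, hlow⟩ := exists_x (by omega : 2 < q) (q + M)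
      have hx0 : 0 < x := by linarith
      have h1 := R_big hp hpq hc hx0 hx1 M hxn
      have h2 : R p q x ≤ B * (1 - x)⁻¹ := by
        have e1 := (summable_real hp hpq hc hx0.le hx1).hasSum
        have e2 := (hasSum_geometric_of_lt_one hx0.le hx1).mul_left (B : ℝ)
        refine hasSum_le ?_ e1 e2
        intro n
        apply mul_le_mul_of_nonneg_right _ (by positivity)
        exact_mod_cast hB n
      have h3 : (1 - x)⁻¹ ≤ 4 / 3 * (q : ℝ) ^ (q + M) := by
        have e1 : (0 : ℝ) < 3 / (4 * (q : ℝ) ^ (q + M)) := by positivity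
        have e2 := inv_anti₀ e1 hlow
        refine le_trans e2 (le_of_eq ?_)
        rw [inv_div]; ring
      have h4 : 1 / 4 * (2 * (q : ℝ)) ^ M ≤ B * (4 / 3 * (q : ℝ) ^ (q + M)) :=
        le_trans h1 (le_trans h2 (mul_le_mul_of_nonneg_left h3 (by positivity)))
      rw [mul_pow, pow_add] at h4
      have h5 : (0 : ℝ) < (q : ℝ) ^ M := by positivity
      have h6 : (2 : ℝ) ^ M * (q : ℝ) ^ M ≤ (16 / 3 * B * (q : ℝ) ^ q) * (q : ℝ) ^ M := by
        linarith
      exact le_of_mul_le_mul_right h6 h5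
    obtain ⟨M, hM⟩ := pow_unbounded_of_one_lt (16 / 3 * B * (q : ℝ) ^ q) (by norm_num : (1 : ℝ) < 2)
    exact absurd (hub M) (not_le.mpr hM)
  · intro N
    by_contra hcon
    push Not at hcon
    obtain ⟨C, hC0, hC⟩ := diff_bound hp hpq hc N hcon
    -- lower bound for |1 - ζ x|
    have hs : 0 < Real.sin (2 * Real.pi / p) := by
      apply Real.sin_pos_of_pos_of_lt_pi
      · have := Real.pi_pos
        positivity
      · rw [div_lt_iff₀ hp0]
        have : (2 : ℝ) < p := by exact_mod_cast hp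
        nlinarith [Real.pi_pos]
    set δ : ℝ := 1 / 4 * Real.sin (2 * Real.pi / p) with hδ
    have hδ0 : 0 < δ := by positivity
    have hlow : ∀ x : ℝ, 1 / 4 ≤ x → δ ≤ ‖1 - ze p * (x : ℂ)‖ := by
      intro x hx
      have e1 : |(1 - ze p * (x : ℂ)).im| ≤ ‖1 - ze p * (x : ℂ)‖ := Complex.abs_im_le_norm _
      have e2 : (1 - ze p * (x : ℂ)).im = -(Real.sin (2 * Real.pi / p) * x) := by
        have e3 := ze_pow p 1
        rw [pow_one] at e3
        rw [e3]
        simp only [Complex.sub_im, Complex.one_im, Complex.mul_im, Complex.ofReal_re,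
          Complex.ofReal_im, Complex.exp_ofReal_mul_I_im, Complex.exp_ofReal_mul_I_re]
        have : (2 * Real.pi * ((1 : ℕ) : ℝ) / p) = 2 * Real.pi / p := by push_cast; ring
        rw [this]
        ring
      rw [e2, abs_neg, abs_of_nonneg (by nlinarith)] at e1
      refine le_trans ?_ e1
      rw [hδ]
      nlinarith
    have hkey : ∀ M : ℕ, δ / 3 - 3 * ((p : ℝ) / q) ^ (q + M) ≤ C * (p : ℝ) ^ q * 4 * (1 / 2) ^ M := by
      intro M
      obtain ⟨x, hx4, hx1, hxn, hup, _⟩ := exists_x (by omega : 2 < q) (q + M)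
      have hx0 : 0 < x := by linarith
      have h1 := R_big hp hpq hc hx0 hx1 M hxn
      have h2 := main_ratio hp hpq hc hx0 hx1 (q + M) hxn
      have hzn : ‖ze p * (x : ℂ)‖ = x := by
        rw [norm_mul, ze_norm, one_mul, Complex.norm_real, Real.norm_of_nonneg hx0.le]
      have h3 := hC (ze p * (x : ℂ)) (by rw [hzn]; exact hx1)
      rw [hzn, norm_mul] at h3
      have hR0 : 0 < R p q x := lt_of_lt_of_le (by positivity) h1
      have h4 : δ * (1 / 3 * (1 / (p : ℝ)) ^ (q + M) * R p q x) ≤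
          3 / (q : ℝ) ^ (q + M) * R p q x + C := by
        calc δ * (1 / 3 * (1 / (p : ℝ)) ^ (q + M) * R p q x)
            ≤ ‖1 - ze p * (x : ℂ)‖ * ‖F p q (ze p * (x : ℂ))‖ :=
              mul_le_mul (hlow x hx4) h2 (by positivity) (norm_nonneg _)
          _ ≤ (1 - x) * R p q x + C := h3
          _ ≤ _ := by
              have := mul_le_mul_of_nonneg_right hup hR0.le
              linarith
      have hP : (0 : ℝ) < (p : ℝ) ^ (q + M) := by positivity
      have h5 : (δ / 3 - 3 * ((p : ℝ) / q) ^ (q + M)) * R p q x ≤ C * (p : ℝ) ^ (q + M) := by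
        have h6 := mul_le_mul_of_nonneg_right h4 hP.le
        have e1 : δ * (1 / 3 * (1 / (p : ℝ)) ^ (q + M) * R p q x) * (p : ℝ) ^ (q + M) =
            δ / 3 * R p q x := by
          rw [one_div_pow]
          field_simp
        have e2 : (3 / (q : ℝ) ^ (q + M) * R p q x + C) * (p : ℝ) ^ (q + M) =
            3 * ((p : ℝ) / q) ^ (q + M) * R p q x + C * (p : ℝ) ^ (q + M) := by
          rw [div_pow]
          field_simp
        rw [e1, e2] at h6
        linarith
      by_cases hneg : δ / 3 - 3 * ((p : ℝ) / q) ^ (q + M) ≤ 0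
      · refine le_trans hneg ?_
        positivity
      · push Not at hneg
        have h7 : (δ / 3 - 3 * ((p : ℝ) / q) ^ (q + M)) * (1 / 4 * (2 * (q : ℝ)) ^ M) ≤
            C * (p : ℝ) ^ (q + M) := le_trans (mul_le_mul_of_nonneg_left h1 hneg.le) h5
        have h8 : C * (p : ℝ) ^ (q + M) ≤ C * ((p : ℝ) ^ q * (q : ℝ) ^ M) := by
          rw [pow_add]
          apply mul_le_mul_of_nonneg_left _ hC0
          apply mul_le_mul_of_nonneg_left _ (by positivity)
          exact pow_le_pow_left₀ hp0.le hpqr.le M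
        have h9 := le_trans h7 h8
        have h10 : (0 : ℝ) < 1 / 4 * (2 * (q : ℝ)) ^ M := by positivity
        rw [← le_div_iff₀ h10] at h9
        refine le_trans h9 (le_of_eq ?_)
        rw [mul_pow, one_div_pow]
        field_simp
    have ht1 : Tendsto (fun M : ℕ => ((p : ℝ) / q) ^ (q + M)) atTop (𝓝 0) := by
      have h1 : Tendsto (fun M : ℕ => ((p : ℝ) / q) ^ M) atTop (𝓝 0) :=
        tendsto_pow_atTop_nhds_zero_of_lt_one (by positivity) (by rw [div_lt_one hq0]; exact hpqr)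
      have h2 : Tendsto (fun M : ℕ => q + M) atTop atTop :=
        tendsto_atTop_mono (fun n => Nat.le_add_left n q) tendsto_id
      exact h1.comp h2
    have ht2 : Tendsto (fun M : ℕ => C * (p : ℝ) ^ q * 4 * (1 / 2) ^ M) atTop (𝓝 0) := by
      have h1 : Tendsto (fun M : ℕ => (1 / 2 : ℝ) ^ M) atTop (𝓝 0) :=
        tendsto_pow_atTop_nhds_zero_of_lt_one (by norm_num) (by norm_num)
      have := h1.const_mul (C * (p : ℝ) ^ q * 4)
      simpa using this
    have ht3 : Tendsto (fun M : ℕ => δ / 3 - 3 * ((p : ℝ) / q) ^ (q + M)) atTop (𝓝 (δ / 3)) := by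
      have := (ht1.const_mul 3).const_sub (δ / 3)
      simpa using this
    have := le_of_tendsto_of_tendsto' ht3 ht2 hkey
    linarith

end Pool.Agent.Results.MP_b44203_nt.SignChanges
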